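import Pool.Agent.U263.Gun.Main

set_option autoImplicit false

namespace Pool.Agent.U263.Gun

/-- the cells of the board with `m` rows and `n` columns -/
def board (m n : ℕ) : Finset (ℕ × ℕ) := Finset.Icc 1 m ×ˢ Finset.Icc 1 n

/-- the two cells share an edge -/
def Adj (p q : ℕ × ℕ) : Prop :=
  (p.1 = q.1 ∧ (p.2 + 1 = q.2 ∨ q.2 + 1 = p.2)) ∨ (p.2 = q.2 ∧ (p.1 + 1 = q.1 ∨ q.1 + 1 = p.1))

/-- the cells of the board that no domino of `S` covers -/
def holes (m n : ℕ) (S : Finset (Finset (ℕ × ℕ))) : Finset (ℕ × ℕ) := board m n \ S.biUnion id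

/-- `S` is a gunport configuration on the `m × n` board -/
structure IsGunport (m n : ℕ) (S : Finset (Finset (ℕ × ℕ))) : Prop where
  domino : ∀ d ∈ S, ∃ p q : ℕ × ℕ, Adj p q ∧ d = {p, q}
  inside : ∀ d ∈ S, d ⊆ board m n
  disj : ∀ d ∈ S, ∀ e ∈ S, d ≠ e → Disjoint d e
  isolated : ∀ p ∈ holes m n S, ∀ q ∈ holes m n S, ¬ Adj p q

/-- the maximum number of holes -/
noncomputable def G (m n : ℕ) : ℕ :=
  sSup {h : ℕ | ∃ S : Finset (Finset (ℕ × ℕ)), IsGunport m n S ∧ (holes m n S).card = h}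

open Cl

/-- horizontal and vertical domino with the given left or top cell -/
def hD (i j : ℕ) : Finset (ℕ × ℕ) := {(i, j), (i, j + 1)}
def vD (i j : ℕ) : Finset (ℕ × ℕ) := {(i, j), (i + 1, j)}

/-- the configuration written cell by cell -/
def cell (m n : ℕ) (S : Finset (Finset (ℕ × ℕ))) (i j : ℕ) : Cl :=
  if (i, j) ∈ board m n then
    if hD i j ∈ S then L
    else if vD i j ∈ S then T
    else if hD i (j - 1) ∈ S then R
    else if vD (i - 1) j ∈ S then B
    else O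
  else W

section

variable {m n : ℕ} {S : Finset (Finset (ℕ × ℕ))}

theorem mem_board {i j : ℕ} : (i, j) ∈ board m n ↔ 1 ≤ i ∧ i ≤ m ∧ 1 ≤ j ∧ j ≤ n := by
  simp only [board, Finset.mem_product, Finset.mem_Icc]
  tauto

theorem IsGunport.uniq (h : IsGunport m n S) {d e : Finset (ℕ × ℕ)} (hd : d ∈ S) (he : e ∈ S)
    {p : ℕ × ℕ} (pd : p ∈ d) (pe : p ∈ e) : d = e := by
  by_contra hne
  exact Finset.disjoint_left.1 (h.disj d hd e he hne) pd pe

theorem IsGunport.cover (h : IsGunport m n S) {i j : ℕ} (hi : 1 ≤ i) (hj : 1 ≤ j)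
    {d : Finset (ℕ × ℕ)} (hd : d ∈ S) (pd : (i, j) ∈ d) :
    d = hD i j ∨ d = vD i j ∨ d = hD i (j - 1) ∨ d = vD (i - 1) j := by
  obtain ⟨p, q, hpq, rfl⟩ := h.domino d hd
  obtain ⟨p1, p2⟩ := p
  obtain ⟨q1, q2⟩ := q
  simp only [Adj] at hpq
  have key : (p1 = i ∧ p2 = j) ∨ (q1 = i ∧ q2 = j) := by
    simp only [Finset.mem_insert, Finset.mem_singleton, Prod.mk.injEq] at pd
    omega
  obtain ⟨i, rfl⟩ : ∃ i', i = i' + 1 := ⟨i - 1, by omega⟩
  obtain ⟨j, rfl⟩ : ∃ j', j = j' + 1 := ⟨j - 1, by omega⟩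
  simp only [Nat.add_sub_cancel]
  rcases key with ⟨h1, h2⟩ | ⟨h1, h2⟩
  · subst h1 h2
    rcases hpq with ⟨h3, h4 | h4⟩ | ⟨h3, h4 | h4⟩
    · left; subst h3 h4; rfl
    · right; right; left
      have : q2 = j := by omega
      subst h3 this
      unfold hD
      rw [Finset.pair_comm]
    · right; left; subst h3 h4; rfl
    · right; right; right
      have : q1 = i := by omega
      subst h3 this
      unfold vD
      rw [Finset.pair_comm]
  · subst h1 h2
    rcases hpq with ⟨h3, h4 | h4⟩ | ⟨h3, h4 | h4⟩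
    · right; right; left
      have : p2 = j := by omega
      subst h3 this
      rfl
    · left; subst h3 h4
      unfold hD
      rw [Finset.pair_comm]
    · right; right; right
      have : p1 = i := by omega
      subst h3 this
      rfl
    · right; left; subst h3 h4
      unfold vD
      rw [Finset.pair_comm]

theorem mem_hD {i j a b : ℕ} : (a, b) ∈ hD i j ↔ a = i ∧ (b = j ∨ b = j + 1) := by
  simp only [hD, Finset.mem_insert, Finset.mem_singleton, Prod.mk.injEq]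
  tauto

theorem mem_vD {i j a b : ℕ} : (a, b) ∈ vD i j ↔ (a = i ∨ a = i + 1) ∧ b = j := by
  simp only [vD, Finset.mem_insert, Finset.mem_singleton, Prod.mk.injEq]
  tauto

theorem hD_ne_vD {i j a b : ℕ} : hD i j ≠ vD a b := by
  intro h
  have h1 : (i, j) ∈ vD a b := by rw [← h]; exact mem_hD.2 ⟨rfl, Or.inl rfl⟩
  have h2 : (i, j + 1) ∈ vD a b := by rw [← h]; exact mem_hD.2 ⟨rfl, Or.inr rfl⟩
  rw [mem_vD] at h1 h2
  omega

theorem hD_inj {i j a b : ℕ} (h : hD i j = hD a b) : i = a ∧ j = b := by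
  have h1 : (i, j) ∈ hD a b := by rw [← h]; exact mem_hD.2 ⟨rfl, Or.inl rfl⟩
  have h2 : (i, j + 1) ∈ hD a b := by rw [← h]; exact mem_hD.2 ⟨rfl, Or.inr rfl⟩
  rw [mem_hD] at h1 h2
  omega

theorem vD_inj {i j a b : ℕ} (h : vD i j = vD a b) : i = a ∧ j = b := by
  have h1 : (i, j) ∈ vD a b := by rw [← h]; exact mem_vD.2 ⟨Or.inl rfl, rfl⟩
  have h2 : (i + 1, j) ∈ vD a b := by rw [← h]; exact mem_vD.2 ⟨Or.inr rfl, rfl⟩
  rw [mem_vD] at h1 h2
  omega

theorem cell_W {i j : ℕ} : cell m n S i j = W ↔ (i, j) ∉ board m n := by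
  unfold cell
  split_ifs with h1 <;> simp_all

theorem IsGunport.cell_L (h : IsGunport m n S) {i j : ℕ} :
    cell m n S i j = L ↔ hD i j ∈ S := by
  constructor
  · intro hc
    by_contra h1
    unfold cell at hc
    simp only [h1, if_false] at hc
    split_ifs at hc
  · intro h1
    have h2 : (i, j) ∈ board m n := h.inside _ h1 (mem_hD.2 ⟨rfl, Or.inl rfl⟩)
    unfold cell
    rw [if_pos h2, if_pos h1]

theorem IsGunport.cell_T (h : IsGunport m n S) {i j : ℕ} :
    cell m n S i j = T ↔ vD i j ∈ S := by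
  constructor
  · intro hc
    by_contra h1
    unfold cell at hc
    simp only [h1, if_false] at hc
    split_ifs at hc
  · intro h1
    have h2 : (i, j) ∈ board m n := h.inside _ h1 (mem_vD.2 ⟨Or.inl rfl, rfl⟩)
    have h3 : hD i j ∉ S := fun h4 =>
      hD_ne_vD (h.uniq h4 h1 (mem_hD.2 ⟨rfl, Or.inl rfl⟩) (mem_vD.2 ⟨Or.inl rfl, rfl⟩))
    unfold cell
    rw [if_pos h2, if_neg h3, if_pos h1]

theorem IsGunport.cell_R (h : IsGunport m n S) {i j : ℕ} :
    cell m n S i (j + 1) = R ↔ hD i j ∈ S := by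
  constructor
  · intro hc
    by_contra h1
    unfold cell at hc
    simp only [Nat.add_sub_cancel, h1, if_false] at hc
    split_ifs at hc
  · intro h1
    have h2 : (i, j + 1) ∈ board m n := h.inside _ h1 (mem_hD.2 ⟨rfl, Or.inr rfl⟩)
    have h3 : hD i (j + 1) ∉ S := fun h4 => by
      have := hD_inj (h.uniq h4 h1 (p := (i, j + 1)) (mem_hD.2 ⟨rfl, Or.inl rfl⟩)
        (mem_hD.2 ⟨rfl, Or.inr rfl⟩))
      omega
    have h5 : vD i (j + 1) ∉ S := fun h4 =>
      hD_ne_vD (h.uniq h1 h4 (p := (i, j + 1)) (mem_hD.2 ⟨rfl, Or.inr rfl⟩)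
        (mem_vD.2 ⟨Or.inl rfl, rfl⟩))
    unfold cell
    rw [if_pos h2, if_neg h3, if_neg h5, Nat.add_sub_cancel, if_pos h1]

theorem IsGunport.cell_B (h : IsGunport m n S) {i j : ℕ} :
    cell m n S (i + 1) j = B ↔ vD i j ∈ S := by
  constructor
  · intro hc
    by_contra h1
    unfold cell at hc
    simp only [Nat.add_sub_cancel, h1, if_false] at hc
    split_ifs at hc
  · intro h1
    have h2 : (i + 1, j) ∈ board m n := h.inside _ h1 (mem_vD.2 ⟨Or.inr rfl, rfl⟩)
    have h3 : hD (i + 1) j ∉ S := fun h4 =>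
      hD_ne_vD (h.uniq h4 h1 (p := (i + 1, j)) (mem_hD.2 ⟨rfl, Or.inl rfl⟩)
        (mem_vD.2 ⟨Or.inr rfl, rfl⟩))
    have h5 : vD (i + 1) j ∉ S := fun h4 => by
      have := vD_inj (h.uniq h4 h1 (p := (i + 1, j)) (mem_vD.2 ⟨Or.inl rfl, rfl⟩)
        (mem_vD.2 ⟨Or.inr rfl, rfl⟩))
      omega
    have h6 : hD (i + 1) (j - 1) ∉ S := fun h4 => by
      have hj := (mem_board.1 h2).2.2.1
      exact hD_ne_vD (h.uniq h4 h1 (p := (i + 1, j)) (mem_hD.2 ⟨rfl, Or.inr (by omega)⟩)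
        (mem_vD.2 ⟨Or.inr rfl, rfl⟩))
    unfold cell
    rw [if_pos h2, if_neg h3, if_neg h5, if_neg h6, Nat.add_sub_cancel, if_pos h1]

theorem IsGunport.cell_O (h : IsGunport m n S) {i j : ℕ} :
    cell m n S i j = O ↔ (i, j) ∈ holes m n S := by
  simp only [holes, Finset.mem_sdiff, Finset.mem_biUnion, id, not_exists, not_and]
  constructor
  · intro hc
    have hb : (i, j) ∈ board m n := by
      by_contra hb
      rw [cell_W.2 hb] at hc
      cases hc
    refine ⟨hb, ?_⟩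
    intro d hd pd
    have hb' := mem_board.1 hb
    rcases h.cover hb'.1 hb'.2.2.1 hd pd with e | e | e | e
    · subst e
      rw [h.cell_L.2 hd] at hc
      cases hc
    · subst e
      rw [h.cell_T.2 hd] at hc
      cases hc
    · subst e
      obtain ⟨j, rfl⟩ : ∃ j', j = j' + 1 := ⟨j - 1, by omega⟩
      rw [Nat.add_sub_cancel] at hd
      rw [h.cell_R.2 hd] at hc
      cases hc
    · subst e
      obtain ⟨i, rfl⟩ : ∃ i', i = i' + 1 := ⟨i - 1, by omega⟩
      rw [Nat.add_sub_cancel] at hd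
      rw [h.cell_B.2 hd] at hc
      cases hc
  · rintro ⟨hb, hn⟩
    have hb' := mem_board.1 hb
    have h1 : hD i j ∉ S := fun h1 => hn _ h1 (mem_hD.2 ⟨rfl, Or.inl rfl⟩)
    have h2 : vD i j ∉ S := fun h1 => hn _ h1 (mem_vD.2 ⟨Or.inl rfl, rfl⟩)
    have h3 : hD i (j - 1) ∉ S := fun h1 => hn _ h1 (mem_hD.2 ⟨rfl, Or.inr (by omega)⟩)
    have h4 : vD (i - 1) j ∉ S := fun h1 => hn _ h1 (mem_vD.2 ⟨Or.inr (by omega), rfl⟩)
    unfold cell
    rw [if_pos hb, if_neg h1, if_neg h2, if_neg h3, if_neg h4]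

theorem hp_iff : ∀ u v : Cl, hp u v = true ↔ ((u = L ↔ v = R) ∧ ¬ (u = O ∧ v = O)) := by
  decide +kernel

theorem vp_iff : ∀ u v : Cl, vp u v = true ↔ ((u = T ↔ v = B) ∧ ¬ (u = O ∧ v = O)) := by
  decide +kernel

theorem IsGunport.grid (h : IsGunport m n S) : Grid m n (cell m n S) where
  wall := by
    intro i j
    rw [cell_W, mem_board]
  hor := by
    intro i j
    rw [hp_iff, h.cell_L, h.cell_R]
    refine ⟨Iff.rfl, ?_⟩
    rintro ⟨h1, h2⟩
    rw [h.cell_O] at h1 h2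
    exact h.isolated _ h1 _ h2 (Or.inl ⟨rfl, Or.inl rfl⟩)
  ver := by
    intro i j
    rw [vp_iff, h.cell_T, h.cell_B]
    refine ⟨Iff.rfl, ?_⟩
    rintro ⟨h1, h2⟩
    rw [h.cell_O] at h1 h2
    exact h.isolated _ h1 _ h2 (Or.inr ⟨rfl, Or.inl rfl⟩)

theorem ws_rowL (g : Cl → ℤ) (f : ℕ → Cl) : ∀ (len s : ℕ),
    ws g (rowL f s len) = ∑ j ∈ Finset.Ico s (s + len), g (f j)
  | 0, s => by simp [rowL, ws]
  | len + 1, s => by
    rw [Finset.sum_eq_sum_Ico_succ_bot (by omega)]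
    simp only [rowL, ws]
    rw [ws_rowL g f len (s + 1)]
    congr 2
    congr 1
    omega

theorem HH_eq (C : ℕ → ℕ → Cl) : ∀ k : ℕ,
    HH n C k = ∑ i ∈ Finset.Ico 1 (k + 1), ∑ j ∈ Finset.Ico 1 (n + 1), tO (C i j)
  | 0 => by simp [HH]
  | k + 1 => by
    rw [Finset.sum_Ico_succ_top (by omega), ← HH_eq C k]
    simp only [HH, row]
    rw [ws_rowL, Nat.add_comm 1 n]

theorem IsGunport.card_holes (h : IsGunport m n S) :
    ((holes m n S).card : ℤ) = HH n (cell m n S) m := by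
  have e : holes m n S = (board m n).filter (fun p => cell m n S p.1 p.2 = O) := by
    ext ⟨i, j⟩
    rw [Finset.mem_filter, h.cell_O]
    simp only [holes, Finset.mem_sdiff]
    tauto
  rw [e, HH_eq, Finset.card_filter]
  push_cast
  unfold board
  rw [Finset.sum_product]
  have e1 : Finset.Icc 1 m = Finset.Ico 1 (m + 1) := by ext; simp
  have e2 : Finset.Icc 1 n = Finset.Ico 1 (n + 1) := by ext; simp
  rw [e1, e2]
  apply Finset.sum_congr rfl
  intro i _
  apply Finset.sum_congr rfl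
  intro j _
  have : ∀ c : Cl, (if c = O then (1 : ℤ) else 0) = tO c := by
    intro c; cases c <;> simp [tO]
  exact this _

theorem Adj.ne {p q : ℕ × ℕ} (h : Adj p q) : p ≠ q := by
  rintro rfl
  unfold Adj at h
  omega

theorem IsGunport.card_add (h : IsGunport m n S) :
    (holes m n S).card + 2 * S.card = m * n := by
  have h1 : (S.biUnion id).card = 2 * S.card := by
    have h0 := Finset.card_biUnion (s := S) (t := id)
      (fun d hd e he hne => h.disj d hd e he hne)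
    rw [h0, Finset.sum_const_nat (m := 2), Nat.mul_comm]
    intro d hd
    obtain ⟨p, q, hpq, rfl⟩ := h.domino d hd
    exact Finset.card_pair hpq.ne
  have h2 : S.biUnion id ⊆ board m n := by
    intro p hp
    obtain ⟨d, hd, pd⟩ := Finset.mem_biUnion.1 hp
    exact h.inside d hd pd
  have h3 := Finset.card_sdiff_add_card_eq_card h2
  have h4 : (board m n).card = m * n := by
    simp [board]
  unfold holes
  rw [← h1, h3, h4]

end

theorem le72 {S : Finset (Finset (ℕ × ℕ))} (h : IsGunport 16 14 S) :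
    (holes 16 14 S).card ≤ 72 := by
  have h1 := h.card_add
  have h2 := h.card_holes
  have h3 := no74 h.grid
  have h4 := le75 h.grid
  rw [← h2] at h3 h4
  omega

end Pool.Agent.U263.Gun
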