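import Mathlib

set_option autoImplicit false

namespace Pool.Agent.U263.Gun

/-- What a cell of the board is: a hole, the left or right cell of a horizontal domino, the top or
bottom cell of a vertical domino; `W` stands for the outside of the board. -/
inductive Cl
  | O | L | R | T | B | W
  deriving DecidableEq

open Cl

noncomputable def isO : Cl → Bool
  | O => true
  | _ => false
noncomputable def isL : Cl → Bool
  | L => true
  | _ => false
noncomputable def isR : Cl → Bool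
  | R => true
  | _ => false
noncomputable def isT : Cl → Bool
  | T => true
  | _ => false
noncomputable def isB : Cl → Bool
  | B => true
  | _ => false
noncomputable def isW : Cl → Bool
  | W => true
  | _ => false

noncomputable def nn (b : Bool) : ℕ := match b with
  | true => 1
  | false => 0

/-- `b` above `v`, `u` to the left of `v` -/
noncomputable def ok (b u v : Cl) : Bool :=
  (isT b == isB v) && !(isO b && isO v) && (isL u == isR v) && !(isO u && isO v)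

/-- horizontal defects of the window `a b / u v` -/
noncomputable def xd (a b u v : Cl) : ℕ :=
  match u with
  | W => nn (!(isO b) && !(isO v) && !(isT b))
  | _ => match v with
    | W => nn (!(isO a) && !(isO u) && !(isT a))
    | L => nn (!(isO u)) + nn (isR u) + nn (isB u && !(isO b))
    | O => 0
    | B => nn (isR u) + nn (!(isO a) && !(isO u)) + nn (isB u && !(isO b))
    | _ => nn (isR u) + nn (isB u && !(isO b))

/-- vertical defects of the window `a b / u v` -/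
noncomputable def yd (a b u v : Cl) : ℕ :=
  match isW a && isW b with
  | true => nn (!(isO u) && !(isO v) && !(isL u))
  | false => match v with
    | T => nn (!(isO b)) + nn (isB b) + nn (isR b && !(isO u))
    | O => 0
    | R => nn (isB b) + nn (!(isO a) && !(isO b)) + nn (isR b && !(isO u))
    | _ => nn (isB b) + nn (isR b && !(isO u))

/-- table of `xd a b u v + 8 * yd a b u v`, arguments in the order `v u b a` -/
noncomputable def cst : Cl → Cl → Cl → Cl → ℕ :=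
  (fun c => Cl.rec (motive := fun _ => Cl → Cl → Cl → ℕ) (fun _ _ _ => (nat_lit 0)) (fun c => Cl.rec (motive := fun _ => Cl → Cl → ℕ) (fun c => Cl.rec (motive := fun _ => Cl → ℕ) (fun _ => (nat_lit 0)) (fun _ => (nat_lit 0)) (fun _ => (nat_lit 0)) (fun _ => (nat_lit 0)) (fun _ => (nat_lit 8)) (fun _ => (nat_lit 0)) c) (fun c => Cl.rec (motive := fun _ => Cl → ℕ) (fun _ => (nat_lit 1)) (fun _ => (nat_lit 1)) (fun _ => (nat_lit 9)) (fun _ => (nat_lit 1)) (fun _ => (nat_lit 9)) (fun _ => (nat_lit 1)) c) (fun c => Cl.rec (motive := fun _ => Cl → ℕ) (fun _ => (nat_lit 2)) (fun _ => (nat_lit 2)) (fun _ => (nat_lit 10)) (fun _ => (nat_lit 2)) (fun _ => (nat_lit 10)) (fun c => Cl.rec (motive := fun _ => ℕ) (nat_lit 2) (nat_lit 2) (nat_lit 2) (nat_lit 2) (nat_lit 2) (nat_lit 10) c) c) (fun c => Cl.rec (motive := fun _ => Cl → ℕ) (fun _ => (nat_lit 1)) (fun _ => (nat_lit 1)) (fun _ => (nat_lit 9)) (fun _ => (nat_lit 1)) (fun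 _ => (nat_lit 9)) (fun c => Cl.rec (motive := fun _ => ℕ) (nat_lit 1) (nat_lit 1) (nat_lit 1) (nat_lit 1) (nat_lit 1) (nat_lit 9) c) c) (fun c => Cl.rec (motive := fun _ => Cl → ℕ) (fun _ => (nat_lit 1)) (fun _ => (nat_lit 2)) (fun _ => (nat_lit 10)) (fun _ => (nat_lit 2)) (fun _ => (nat_lit 10)) (fun c => Cl.rec (motive := fun _ => ℕ) (nat_lit 2) (nat_lit 2) (nat_lit 2) (nat_lit 2) (nat_lit 2) (nat_lit 10) c) c) (fun c => Cl.rec (motive := fun _ => Cl → ℕ) (fun _ => (nat_lit 0)) (fun _ => (nat_lit 1)) (fun _ => (nat_lit 9)) (fun _ => (nat_lit 0)) (fun _ => (nat_lit 9)) (fun c => Cl.rec (motive := fun _ => ℕ) (nat_lit 1) (nat_lit 1) (nat_lit 1) (nat_lit 1) (nat_lit 1) (nat_lit 9) c) c) c) (fun c => Cl.rec (motive := fun _ => Cl → Cl → ℕ) (fun c => Cl.rec (motive := fun _ => Cl → ℕ) (fun _ => (nat_lit 0)) (fun c => Cl.rec (motive := fun _ => ℕ) (nat_lit 0) (nat_lit 8) (nat_lit 8) (nat_lit 8) (nat_lit 8) (nat_lit 8)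 c) (fun c => Cl.rec (motive := fun _ => ℕ) (nat_lit 0) (nat_lit 8) (nat_lit 8) (nat_lit 8) (nat_lit 8) (nat_lit 8) c) (fun c => Cl.rec (motive := fun _ => ℕ) (nat_lit 0) (nat_lit 8) (nat_lit 8) (nat_lit 8) (nat_lit 8) (nat_lit 8) c) (fun c => Cl.rec (motive := fun _ => ℕ) (nat_lit 8) (nat_lit 16) (nat_lit 16) (nat_lit 16) (nat_lit 16) (nat_lit 16) c) (fun c => Cl.rec (motive := fun _ => ℕ) (nat_lit 0) (nat_lit 8) (nat_lit 8) (nat_lit 8) (nat_lit 8) (nat_lit 0) c) c) (fun c => Cl.rec (motive := fun _ => Cl → ℕ) (fun _ => (nat_lit 0)) (fun c => Cl.rec (motive := fun _ => ℕ) (nat_lit 0) (nat_lit 8) (nat_lit 8) (nat_lit 8) (nat_lit 8) (nat_lit 8) c) (fun c => Cl.rec (motive := fun _ => ℕ) (nat_lit 8) (nat_lit 16) (nat_lit 16) (nat_lit 16) (nat_lit 16) (nat_lit 16) c) (fun c => Cl.rec (motive := fun _ => ℕ) (nat_lit 0) (nat_lit 8) (nat_lit 8) (nat_lit 8) (nat_lit 8) (nat_lit 8) c) (fun c => Cl.rec (motive := fun _ => ℕ)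 (nat_lit 8) (nat_lit 16) (nat_lit 16) (nat_lit 16) (nat_lit 16) (nat_lit 16) c) (fun c => Cl.rec (motive := fun _ => ℕ) (nat_lit 0) (nat_lit 8) (nat_lit 8) (nat_lit 8) (nat_lit 8) (nat_lit 0) c) c) (fun c => Cl.rec (motive := fun _ => Cl → ℕ) (fun _ => (nat_lit 1)) (fun c => Cl.rec (motive := fun _ => ℕ) (nat_lit 1) (nat_lit 9) (nat_lit 9) (nat_lit 9) (nat_lit 9) (nat_lit 9) c) (fun c => Cl.rec (motive := fun _ => ℕ) (nat_lit 9) (nat_lit 17) (nat_lit 17) (nat_lit 17) (nat_lit 17) (nat_lit 17) c) (fun c => Cl.rec (motive := fun _ => ℕ) (nat_lit 1) (nat_lit 9) (nat_lit 9) (nat_lit 9) (nat_lit 9) (nat_lit 9) c) (fun c => Cl.rec (motive := fun _ => ℕ) (nat_lit 9) (nat_lit 17) (nat_lit 17) (nat_lit 17) (nat_lit 17) (nat_lit 17) c) (fun c => Cl.rec (motive := fun _ => ℕ) (nat_lit 1) (nat_lit 9) (nat_lit 9) (nat_lit 9) (nat_lit 9) (nat_lit 9) c) c) (fun c => Cl.rec (motive := fun _ => Cl → ℕ) (fun _ => (nat_lit 0)) (fun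 c => Cl.rec (motive := fun _ => ℕ) (nat_lit 0) (nat_lit 8) (nat_lit 8) (nat_lit 8) (nat_lit 8) (nat_lit 8) c) (fun c => Cl.rec (motive := fun _ => ℕ) (nat_lit 8) (nat_lit 16) (nat_lit 16) (nat_lit 16) (nat_lit 16) (nat_lit 16) c) (fun c => Cl.rec (motive := fun _ => ℕ) (nat_lit 0) (nat_lit 8) (nat_lit 8) (nat_lit 8) (nat_lit 8) (nat_lit 8) c) (fun c => Cl.rec (motive := fun _ => ℕ) (nat_lit 8) (nat_lit 16) (nat_lit 16) (nat_lit 16) (nat_lit 16) (nat_lit 16) c) (fun c => Cl.rec (motive := fun _ => ℕ) (nat_lit 0) (nat_lit 8) (nat_lit 8) (nat_lit 8) (nat_lit 8) (nat_lit 8) c) c) (fun c => Cl.rec (motive := fun _ => Cl → ℕ) (fun _ => (nat_lit 0)) (fun c => Cl.rec (motive := fun _ => ℕ) (nat_lit 1) (nat_lit 9) (nat_lit 9) (nat_lit 9) (nat_lit 9) (nat_lit 9) c) (fun c => Cl.rec (motive := fun _ => ℕ) (nat_lit 9) (nat_lit 17) (nat_lit 17) (nat_lit 17) (nat_lit 17) (nat_lit 17) c) (fun c => Cl.rec (motive := fun _ => ℕ) (nat_lit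 1) (nat_lit 9) (nat_lit 9) (nat_lit 9) (nat_lit 9) (nat_lit 9) c) (fun c => Cl.rec (motive := fun _ => ℕ) (nat_lit 9) (nat_lit 17) (nat_lit 17) (nat_lit 17) (nat_lit 17) (nat_lit 17) c) (fun c => Cl.rec (motive := fun _ => ℕ) (nat_lit 1) (nat_lit 9) (nat_lit 9) (nat_lit 9) (nat_lit 9) (nat_lit 9) c) c) (fun c => Cl.rec (motive := fun _ => Cl → ℕ) (fun _ => (nat_lit 0)) (fun c => Cl.rec (motive := fun _ => ℕ) (nat_lit 1) (nat_lit 9) (nat_lit 9) (nat_lit 9) (nat_lit 9) (nat_lit 9) c) (fun c => Cl.rec (motive := fun _ => ℕ) (nat_lit 9) (nat_lit 17) (nat_lit 17) (nat_lit 17) (nat_lit 17) (nat_lit 17) c) (fun c => Cl.rec (motive := fun _ => ℕ) (nat_lit 0) (nat_lit 8) (nat_lit 8) (nat_lit 8) (nat_lit 8) (nat_lit 8) c) (fun c => Cl.rec (motive := fun _ => ℕ) (nat_lit 9) (nat_lit 17) (nat_lit 17) (nat_lit 17) (nat_lit 17) (nat_lit 17) c) (fun c => Cl.rec (motive := fun _ => ℕ) (nat_lit 1) (nat_lit 9) (nat_lit 9) (nat_lit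 9) (nat_lit 9) (nat_lit 9) c) c) c) (fun c => Cl.rec (motive := fun _ => Cl → Cl → ℕ) (fun c => Cl.rec (motive := fun _ => Cl → ℕ) (fun _ => (nat_lit 0)) (fun _ => (nat_lit 8)) (fun _ => (nat_lit 8)) (fun _ => (nat_lit 8)) (fun _ => (nat_lit 16)) (fun c => Cl.rec (motive := fun _ => ℕ) (nat_lit 8) (nat_lit 8) (nat_lit 8) (nat_lit 8) (nat_lit 8) (nat_lit 0) c) c) (fun c => Cl.rec (motive := fun _ => Cl → ℕ) (fun _ => (nat_lit 0)) (fun _ => (nat_lit 8)) (fun _ => (nat_lit 16)) (fun _ => (nat_lit 8)) (fun _ => (nat_lit 16)) (fun c => Cl.rec (motive := fun _ => ℕ) (nat_lit 8) (nat_lit 8) (nat_lit 8) (nat_lit 8) (nat_lit 8) (nat_lit 0) c) c) (fun c => Cl.rec (motive := fun _ => Cl → ℕ) (fun _ => (nat_lit 1)) (fun _ => (nat_lit 9)) (fun _ => (nat_lit 17)) (fun _ => (nat_lit 9)) (fun _ => (nat_lit 17)) (fun _ => (nat_lit 9)) c) (fun c => Cl.rec (motive := fun _ => Cl → ℕ) (fun _ => (nat_lit 0)) (fun _ => (nat_lit 8)) (fun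 _ => (nat_lit 16)) (fun _ => (nat_lit 8)) (fun _ => (nat_lit 16)) (fun _ => (nat_lit 8)) c) (fun c => Cl.rec (motive := fun _ => Cl → ℕ) (fun _ => (nat_lit 0)) (fun _ => (nat_lit 9)) (fun _ => (nat_lit 17)) (fun _ => (nat_lit 9)) (fun _ => (nat_lit 17)) (fun _ => (nat_lit 9)) c) (fun c => Cl.rec (motive := fun _ => Cl → ℕ) (fun _ => (nat_lit 0)) (fun _ => (nat_lit 9)) (fun _ => (nat_lit 17)) (fun _ => (nat_lit 8)) (fun _ => (nat_lit 17)) (fun _ => (nat_lit 9)) c) c) (fun c => Cl.rec (motive := fun _ => Cl → Cl → ℕ) (fun c => Cl.rec (motive := fun _ => Cl → ℕ) (fun _ => (nat_lit 0)) (fun _ => (nat_lit 0)) (fun _ => (nat_lit 0)) (fun _ => (nat_lit 0)) (fun _ => (nat_lit 8)) (fun _ => (nat_lit 0)) c) (fun c => Cl.rec (motive := fun _ => Cl → ℕ) (fun c => Cl.rec (motive := fun _ => ℕ) (nat_lit 0) (nat_lit 1) (nat_lit 1) (nat_lit 1) (nat_lit 1) (nat_lit 1) c) (fun c => Cl.rec (motive := fun _ => ℕ) (nat_lit 0) (nat_lit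 1) (nat_lit 1) (nat_lit 1) (nat_lit 1) (nat_lit 1) c) (fun c => Cl.rec (motive := fun _ => ℕ) (nat_lit 8) (nat_lit 9) (nat_lit 9) (nat_lit 9) (nat_lit 9) (nat_lit 9) c) (fun c => Cl.rec (motive := fun _ => ℕ) (nat_lit 0) (nat_lit 1) (nat_lit 1) (nat_lit 1) (nat_lit 1) (nat_lit 1) c) (fun c => Cl.rec (motive := fun _ => ℕ) (nat_lit 8) (nat_lit 9) (nat_lit 9) (nat_lit 9) (nat_lit 9) (nat_lit 9) c) (fun c => Cl.rec (motive := fun _ => ℕ) (nat_lit 0) (nat_lit 1) (nat_lit 1) (nat_lit 1) (nat_lit 1) (nat_lit 1) c) c) (fun c => Cl.rec (motive := fun _ => Cl → ℕ) (fun c => Cl.rec (motive := fun _ => ℕ) (nat_lit 1) (nat_lit 2) (nat_lit 2) (nat_lit 2) (nat_lit 2) (nat_lit 2) c) (fun c => Cl.rec (motive := fun _ => ℕ) (nat_lit 1) (nat_lit 2) (nat_lit 2) (nat_lit 2) (nat_lit 2) (nat_lit 2) c) (fun c => Cl.rec (motive := fun _ => ℕ) (nat_lit 9) (nat_lit 10) (nat_lit 10) (nat_lit 10) (nat_lit 10) (nat_lit 10) c) (fun c => Cl.rec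 (motive := fun _ => ℕ) (nat_lit 1) (nat_lit 2) (nat_lit 2) (nat_lit 2) (nat_lit 2) (nat_lit 2) c) (fun c => Cl.rec (motive := fun _ => ℕ) (nat_lit 9) (nat_lit 10) (nat_lit 10) (nat_lit 10) (nat_lit 10) (nat_lit 10) c) (fun c => Cl.rec (motive := fun _ => ℕ) (nat_lit 1) (nat_lit 2) (nat_lit 2) (nat_lit 2) (nat_lit 2) (nat_lit 10) c) c) (fun c => Cl.rec (motive := fun _ => Cl → ℕ) (fun c => Cl.rec (motive := fun _ => ℕ) (nat_lit 0) (nat_lit 1) (nat_lit 1) (nat_lit 1) (nat_lit 1) (nat_lit 1) c) (fun c => Cl.rec (motive := fun _ => ℕ) (nat_lit 0) (nat_lit 1) (nat_lit 1) (nat_lit 1) (nat_lit 1) (nat_lit 1) c) (fun c => Cl.rec (motive := fun _ => ℕ) (nat_lit 8) (nat_lit 9) (nat_lit 9) (nat_lit 9) (nat_lit 9) (nat_lit 9) c) (fun c => Cl.rec (motive := fun _ => ℕ) (nat_lit 0) (nat_lit 1) (nat_lit 1) (nat_lit 1) (nat_lit 1) (nat_lit 1) c) (fun c => Cl.rec (motive := fun _ => ℕ) (nat_lit 8) (nat_lit 9) (nat_lit 9) (nat_lit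 9) (nat_lit 9) (nat_lit 9) c) (fun c => Cl.rec (motive := fun _ => ℕ) (nat_lit 0) (nat_lit 1) (nat_lit 1) (nat_lit 1) (nat_lit 1) (nat_lit 9) c) c) (fun c => Cl.rec (motive := fun _ => Cl → ℕ) (fun c => Cl.rec (motive := fun _ => ℕ) (nat_lit 0) (nat_lit 1) (nat_lit 1) (nat_lit 1) (nat_lit 1) (nat_lit 1) c) (fun c => Cl.rec (motive := fun _ => ℕ) (nat_lit 1) (nat_lit 2) (nat_lit 2) (nat_lit 2) (nat_lit 2) (nat_lit 2) c) (fun c => Cl.rec (motive := fun _ => ℕ) (nat_lit 9) (nat_lit 10) (nat_lit 10) (nat_lit 10) (nat_lit 10) (nat_lit 10) c) (fun c => Cl.rec (motive := fun _ => ℕ) (nat_lit 1) (nat_lit 2) (nat_lit 2) (nat_lit 2) (nat_lit 2) (nat_lit 2) c) (fun c => Cl.rec (motive := fun _ => ℕ) (nat_lit 9) (nat_lit 10) (nat_lit 10) (nat_lit 10) (nat_lit 10) (nat_lit 10) c) (fun c => Cl.rec (motive := fun _ => ℕ) (nat_lit 1) (nat_lit 2) (nat_lit 2) (nat_lit 2) (nat_lit 2) (nat_lit 10) c) c) (fun c => Cl.rec (motive := fun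 _ => Cl → ℕ) (fun _ => (nat_lit 0)) (fun _ => (nat_lit 1)) (fun _ => (nat_lit 9)) (fun _ => (nat_lit 0)) (fun _ => (nat_lit 9)) (fun c => Cl.rec (motive := fun _ => ℕ) (nat_lit 1) (nat_lit 1) (nat_lit 1) (nat_lit 1) (nat_lit 1) (nat_lit 9) c) c) c) (fun c => Cl.rec (motive := fun _ => Cl → Cl → ℕ) (fun c => Cl.rec (motive := fun _ => Cl → ℕ) (fun _ => (nat_lit 0)) (fun _ => (nat_lit 0)) (fun _ => (nat_lit 0)) (fun _ => (nat_lit 0)) (fun _ => (nat_lit 8)) (fun _ => (nat_lit 0)) c) (fun c => Cl.rec (motive := fun _ => Cl → ℕ) (fun c => Cl.rec (motive := fun _ => ℕ) (nat_lit 0) (nat_lit 1) (nat_lit 1) (nat_lit 0) (nat_lit 1) (nat_lit 1) c) (fun c => Cl.rec (motive := fun _ => ℕ) (nat_lit 0) (nat_lit 1) (nat_lit 1) (nat_lit 0) (nat_lit 1) (nat_lit 1) c) (fun c => Cl.rec (motive := fun _ => ℕ) (nat_lit 8) (nat_lit 9) (nat_lit 9) (nat_lit 8) (nat_lit 9) (nat_lit 9) c) (fun c => Cl.rec (motive := fun _ => ℕ) (nat_lit 0)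 (nat_lit 1) (nat_lit 1) (nat_lit 0) (nat_lit 1) (nat_lit 1) c) (fun c => Cl.rec (motive := fun _ => ℕ) (nat_lit 8) (nat_lit 9) (nat_lit 9) (nat_lit 8) (nat_lit 9) (nat_lit 9) c) (fun c => Cl.rec (motive := fun _ => ℕ) (nat_lit 0) (nat_lit 1) (nat_lit 1) (nat_lit 0) (nat_lit 1) (nat_lit 1) c) c) (fun c => Cl.rec (motive := fun _ => Cl → ℕ) (fun c => Cl.rec (motive := fun _ => ℕ) (nat_lit 0) (nat_lit 1) (nat_lit 1) (nat_lit 0) (nat_lit 1) (nat_lit 1) c) (fun c => Cl.rec (motive := fun _ => ℕ) (nat_lit 0) (nat_lit 1) (nat_lit 1) (nat_lit 0) (nat_lit 1) (nat_lit 1) c) (fun c => Cl.rec (motive := fun _ => ℕ) (nat_lit 8) (nat_lit 9) (nat_lit 9) (nat_lit 8) (nat_lit 9) (nat_lit 9) c) (fun c => Cl.rec (motive := fun _ => ℕ) (nat_lit 0) (nat_lit 1) (nat_lit 1) (nat_lit 0) (nat_lit 1) (nat_lit 1) c) (fun c => Cl.rec (motive := fun _ => ℕ) (nat_lit 8) (nat_lit 9) (nat_lit 9) (nat_lit 8) (nat_lit 9) (nat_lit 9) c) (fun c => Cl.rec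 (motive := fun _ => ℕ) (nat_lit 0) (nat_lit 1) (nat_lit 1) (nat_lit 0) (nat_lit 1) (nat_lit 9) c) c) (fun c => Cl.rec (motive := fun _ => Cl → ℕ) (fun c => Cl.rec (motive := fun _ => ℕ) (nat_lit 0) (nat_lit 1) (nat_lit 1) (nat_lit 0) (nat_lit 1) (nat_lit 1) c) (fun c => Cl.rec (motive := fun _ => ℕ) (nat_lit 0) (nat_lit 1) (nat_lit 1) (nat_lit 0) (nat_lit 1) (nat_lit 1) c) (fun c => Cl.rec (motive := fun _ => ℕ) (nat_lit 8) (nat_lit 9) (nat_lit 9) (nat_lit 8) (nat_lit 9) (nat_lit 9) c) (fun c => Cl.rec (motive := fun _ => ℕ) (nat_lit 0) (nat_lit 1) (nat_lit 1) (nat_lit 0) (nat_lit 1) (nat_lit 1) c) (fun c => Cl.rec (motive := fun _ => ℕ) (nat_lit 8) (nat_lit 9) (nat_lit 9) (nat_lit 8) (nat_lit 9) (nat_lit 9) c) (fun c => Cl.rec (motive := fun _ => ℕ) (nat_lit 0) (nat_lit 1) (nat_lit 1) (nat_lit 0) (nat_lit 1) (nat_lit 9) c) c) (fun c => Cl.rec (motive := fun _ => Cl → ℕ) (fun c => Cl.rec (motive := fun _ => ℕ) (nat_lit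 0) (nat_lit 1) (nat_lit 1) (nat_lit 0) (nat_lit 1) (nat_lit 1) c) (fun c => Cl.rec (motive := fun _ => ℕ) (nat_lit 0) (nat_lit 1) (nat_lit 1) (nat_lit 0) (nat_lit 1) (nat_lit 1) c) (fun c => Cl.rec (motive := fun _ => ℕ) (nat_lit 8) (nat_lit 9) (nat_lit 9) (nat_lit 8) (nat_lit 9) (nat_lit 9) c) (fun c => Cl.rec (motive := fun _ => ℕ) (nat_lit 0) (nat_lit 1) (nat_lit 1) (nat_lit 0) (nat_lit 1) (nat_lit 1) c) (fun c => Cl.rec (motive := fun _ => ℕ) (nat_lit 8) (nat_lit 9) (nat_lit 9) (nat_lit 8) (nat_lit 9) (nat_lit 9) c) (fun c => Cl.rec (motive := fun _ => ℕ) (nat_lit 0) (nat_lit 1) (nat_lit 1) (nat_lit 0) (nat_lit 1) (nat_lit 9) c) c) (fun c => Cl.rec (motive := fun _ => Cl → ℕ) (fun _ => (nat_lit 0)) (fun _ => (nat_lit 1)) (fun _ => (nat_lit 9)) (fun _ => (nat_lit 0)) (fun _ => (nat_lit 9)) (fun c => Cl.rec (motive := fun _ => ℕ) (nat_lit 1) (nat_lit 1) (nat_lit 1) (nat_lit 1) (nat_lit 1) (nat_lit 9) c) c) c) c)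

/-- evaluate `n` and pass it on to `k` -/
noncomputable def force (n : ℕ) (k : ℕ → Bool) : Bool :=
  Nat.rec (motive := fun _ => Bool) (k 0) (fun m _ => k (Nat.succ m)) n

/-- pass `z` on to `k` if bit `z` of `mask` is set -/
noncomputable def gate (mask : ℕ) (k : ℕ → Bool) (z : ℕ) : Bool :=
  Nat.rec (motive := fun _ => Bool) true (fun _ _ => k z) (Nat.land (Nat.shiftRight mask z) 1)

/-- pass `z + d` on to `k` if it is within the budgets -/
noncomputable def put (mask : ℕ) (z d : ℕ) (k : ℕ → Bool) : Bool :=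
  Nat.rec (motive := fun _ => Bool) (k z)
    (fun m _ => force (Nat.add z (Nat.succ m)) (gate mask k)) d

noncomputable def band (x y : Bool) : Bool := Bool.rec (motive := fun _ => Bool) false y x

/-- which branches are open for the cell to the right of `u` and below `b` -/
noncomputable def br (b u : Cl) (tO tT tL tR tB : Bool) : Bool :=
  Cl.rec (motive := fun _ => Cl → Bool)
    (fun u => Cl.rec (motive := fun _ => Bool) (band tT tL) tR (band tT tL) (band tT tL)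
      (band tT tL) (band tT tL) u)
    (fun u => Cl.rec (motive := fun _ => Bool) (band tT tL) tR (band tO (band tT tL))
      (band tO (band tT tL)) (band tO (band tT tL)) (band tO (band tT tL)) u)
    (fun u => Cl.rec (motive := fun _ => Bool) (band tT tL) tR (band tO (band tT tL))
      (band tO (band tT tL)) (band tO (band tT tL)) (band tO (band tT tL)) u)
    (fun u => Cl.rec (motive := fun _ => Bool) tB true tB tB tB tB u)
    (fun u => Cl.rec (motive := fun _ => Bool) (band tT tL) tR (band tO (band tT tL))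
      (band tO (band tT tL)) (band tO (band tT tL)) (band tO (band tT tL)) u)
    (fun u => Cl.rec (motive := fun _ => Bool) (band tT tL) tR (band tO (band tT tL))
      (band tO (band tT tL)) (band tO (band tT tL)) (band tO (band tT tL)) u) b u

/-- All words `w` that can follow the row `p` within the budgets pass the test `k`. -/
noncomputable def chk (mask : ℕ) (k : List Cl → ℕ → Bool) (p : List Cl) :
    Cl → Cl → ℕ → List Cl → Bool :=
  List.rec (motive := fun _ => Cl → Cl → ℕ → List Cl → Bool)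
    (fun a u z acc =>
      Cl.rec (motive := fun _ => Bool → Bool) (fun t => t) (fun _ => true) (fun t => t) (fun t => t)
        (fun t => t) (fun t => t) u
        (put mask z (cst W u W a) (k (List.reverse acc))))
    (fun b _ ih a u z acc =>
      br b u
        (put mask z (cst O u b a) (fun z' => ih b O z' (O :: acc)))
        (put mask z (cst T u b a) (fun z' => ih b T z' (T :: acc)))
        (put mask z (cst L u b a) (fun z' => ih b L z' (L :: acc)))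
        (put mask z (cst R u b a) (fun z' => ih b R z' (R :: acc)))
        (put mask z (cst B u b a) (fun z' => ih b B z' (B :: acc)))) p

/-- the search: `masks` lists the masks for the remaining rows -/
noncomputable def srch (fin : List Cl → ℕ → Bool) (masks : List ℕ) : List Cl → ℕ → Bool :=
  List.rec (motive := fun _ => List Cl → ℕ → Bool) fin
    (fun mask _ ih p z => chk mask ih p W W z []) masks

end Pool.Agent.U263.Gun
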