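import Pool.Agent.U263.Gun.Sound

set_option autoImplicit false

namespace Pool.Agent.U263.Gun

open Cl

/-- weight used for the vertical count -/
def dn : Cl → ℤ
  | O => -1
  | R => 1
  | B => 1
  | _ => 0

theorem rx_closed (t : Bool) : ∀ (p w : List Cl) (a u : Cl), hr p a → vd p w u → vp a u = true →
    (∀ b ∈ p, b = W ↔ t = true) → (a = W ↔ (t = true ∨ u = W)) → (p ≠ [] ∨ u ≠ W) →
    (rx p w a u : ℤ) = rt u + w.length - 3 * ws tO w - ws tT w + ws tT p + evl w u - evl p a
  | [], [], a, u, h1, h2, h3, _, h5, h6 => by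
    simp only [rx, ws, evl, List.length_nil]
    have := xd_id' t a u h1 h2 h3 (by simpa using h6) h5
    rw [this]; push_cast; ring
  | [], _ :: _, _, _, _, h2, _, _, _, _ => h2.elim
  | _ :: _, [], _, _, _, h2, _, _, _, _ => h2.elim
  | b :: p, v :: w, a, u, h1, h2, h3, h4, h5, _ => by
    obtain ⟨h1a, h1b⟩ := h1
    obtain ⟨h2a, h2b, h2c, h2d⟩ := h2
    have hb : b = W ↔ t = true := h4 b (by simp)
    have ih := rx_closed t p w b v h1b h2d h2a (fun c hc => h4 c (by simp [hc]))
      (by rw [hb]; simp [h2c]) (Or.inr h2c)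
    have hw := xd_id t a b u v h1a h2b h3 h2a h2c hb h5
    simp only [rx, ws, evl, List.length_cons]
    push_cast
    rw [ih, hw]; ring

theorem ry_closed (t : Bool) : ∀ (p w : List Cl) (a u : Cl), hr p a → vd p w u → vp a u = true →
    (∀ b ∈ p, b = W ↔ t = true) → (a = W ↔ (t = true ∨ u = W)) → (p ≠ [] ∨ u ≠ W) →
    (ry p w a u : ℤ) = ws dn p - ws dn w + w.length - 3 * ws tO w + (if t = true then 1 else 0)
      + tL u - ev (tau a) (tau u)
  | [], [], a, u, h1, h2, h3, _, h5, h6 => by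
    simp only [ry, ws, List.length_nil]
    have := yd_id' t a u h1 h2 h3 (by simpa using h6) h5
    rw [this]; push_cast; ring
  | [], _ :: _, _, _, _, h2, _, _, _, _ => h2.elim
  | _ :: _, [], _, _, _, h2, _, _, _, _ => h2.elim
  | b :: p, v :: w, a, u, h1, h2, h3, h4, h5, _ => by
    obtain ⟨h1a, h1b⟩ := h1
    obtain ⟨h2a, h2b, h2c, h2d⟩ := h2
    have hb : b = W ↔ t = true := h4 b (by simp)
    have ih := ry_closed t p w b v h1b h2d h2a (fun c hc => h4 c (by simp [hc]))
      (by rw [hb]; simp [h2c]) (Or.inr h2c)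
    have hw := yd_id t a b u v h1a h2b h3 h2a h2c hb h5
    have e1 : rt (tau b) = dn b := by cases b <;> rfl
    have e2 : rt (tau v) = dn v := by cases v <;> rfl
    simp only [ry, ws, List.length_cons]
    push_cast
    rw [ih, hw, e1, e2]; ring

/-- up-down reflection of a cell -/
def fl : Cl → Cl
  | O => O
  | L => L
  | R => R
  | T => B
  | B => T
  | W => W

def cT : Cl → ℤ
  | T => 1
  | W => 1
  | _ => 0

def cW : Cl → ℤ
  | W => 1
  | _ => 0

def cOL : Cl → ℤ
  | O => 1
  | L => 1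
  | _ => 0

def pc : Cl → Cl → ℤ
  | O, L => 1
  | L, O => 1
  | _, _ => 0

theorem midx_id : ∀ a b u v : Cl, hp a b = true → hp u v = true → vp a u = true →
    vp b v = true → v ≠ W → b ≠ W → (a = W ↔ u = W) →
    ev a b + ev (fl u) (fl v) + cT b ≤ cT a + 2 * tT b := by
  decide +kernel

theorem midx_id' : ∀ a u : Cl, vp a u = true → (a = W ↔ u = W) →
    ev a W + ev (fl u) W ≤ cT a + 1 := by
  decide +kernel

theorem midy_id : ∀ a b u v : Cl, hp a b = true → hp u v = true → vp a u = true →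
    vp b v = true → v ≠ W → b ≠ W → (a = W ↔ u = W) →
    pc a u ≤ dn b + dn (fl v) + pc b v := by
  decide +kernel

theorem midy_id' : ∀ a u : Cl, hp a W = true → hp u W = true → pc a u ≤ 0 := by
  decide +kernel

theorem midx : ∀ (p w : List Cl) (a u : Cl), hr p a → vd p w u → vp a u = true →
    (∀ b ∈ p, b ≠ W) → (a = W ↔ u = W) →
    evl p a + evl (w.map fl) (fl u) ≤ cT a + 2 * ws tT p + 1
  | [], [], a, u, _, _, h3, _, h5 => by
    have := midx_id' a u h3 h5
    simpa [ws, evl] using this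
  | [], _ :: _, _, _, _, h2, _, _, _ => h2.elim
  | _ :: _, [], _, _, _, h2, _, _, _ => h2.elim
  | b :: p, v :: w, a, u, h1, h2, h3, h4, h5 => by
    obtain ⟨h1a, h1b⟩ := h1
    obtain ⟨h2a, h2b, h2c, h2d⟩ := h2
    have hb : b ≠ W := h4 b (by simp)
    have ih := midx p w b v h1b h2d h2a (fun c hc => h4 c (by simp [hc])) (by simp [hb, h2c])
    have hw := midx_id a b u v h1a h2b h3 h2a h2c hb h5
    simp only [ws, evl, List.map_cons]
    linarith

theorem midy : ∀ (p w : List Cl) (a u : Cl), hr p a → vd p w u → vp a u = true →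
    (∀ b ∈ p, b ≠ W) → (a = W ↔ u = W) →
    pc a u ≤ ws dn p + ws dn (w.map fl)
  | [], [], a, u, h1, h2, _, _, _ => by
    have := midy_id' a u h1 h2
    simpa [ws] using this
  | [], _ :: _, _, _, _, h2, _, _, _ => h2.elim
  | _ :: _, [], _, _, _, h2, _, _, _ => h2.elim
  | b :: p, v :: w, a, u, h1, h2, h3, h4, h5 => by
    obtain ⟨h1a, h1b⟩ := h1
    obtain ⟨h2a, h2b, h2c, h2d⟩ := h2
    have hb : b ≠ W := h4 b (by simp)
    have ih := midy p w b v h1b h2d h2a (fun c hc => h4 c (by simp [hc])) (by simp [hb, h2c])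
    have hw := midy_id a b u v h1a h2b h3 h2a h2c hb h5
    simp only [ws, List.map_cons]
    linarith

theorem wsT_fl : ∀ (p w : List Cl) (u : Cl), vd p w u → ws tT (w.map fl) = ws tT p
  | [], [], _, _ => by simp [ws]
  | [], _ :: _, _, h2 => h2.elim
  | _ :: _, [], _, h2 => h2.elim
  | b :: p, v :: w, u, h2 => by
    obtain ⟨h2a, h2b, h2c, h2d⟩ := h2
    have ih := wsT_fl p w v h2d
    have : ∀ b v : Cl, vp b v = true → tT (fl v) = tT b := by decide +kernel
    simp only [ws, List.map_cons, ih, this b v h2a]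

theorem wsO_fl : ∀ (w : List Cl), ws tO (w.map fl) = ws tO w
  | [] => rfl
  | v :: w => by
    have : tO (fl v) = tO v := by cases v <;> rfl
    simp only [ws, List.map_cons, wsO_fl w, this]

theorem evl_le : ∀ (w : List Cl) (a : Cl), (∀ v ∈ w, v ≠ T ∧ v ≠ W) → a ≠ T →
    evl w a ≤ cW a + 1
  | [], a, _, _ => by cases a <;> simp [evl, ev, cW]
  | v :: w, a, h, ha => by
    have hv := h v (by simp)
    have ih := evl_le w v (fun c hc => h c (by simp [hc])) hv.1
    have : ∀ a v : Cl, v ≠ T → v ≠ W → a ≠ T → ev a v + cW v ≤ cW a := by decide +kernel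
    have := this a v hv.1 hv.2 ha
    simp only [evl]
    linarith

theorem dn_ge : ∀ (w : List Cl) (u : Cl), (∀ v ∈ w, v ≠ T ∧ v ≠ W) → hr w u →
    -1 + cOL u ≤ ws dn w
  | [], u, _, _ => by cases u <;> simp [ws, cOL]
  | v :: w, u, h, hh => by
    have hv := h v (by simp)
    have ih := dn_ge w v (fun c hc => h c (by simp [hc])) hh.2
    have : ∀ u v : Cl, v ≠ T → v ≠ W → hp u v = true → cOL u ≤ dn v + cOL v := by decide +kernel
    have := this u v hv.1 hv.2 hh.1
    simp only [ws]
    linarith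

/-- the cells `f s, …, f (s + len - 1)` -/
def rowL (f : ℕ → Cl) : ℕ → ℕ → List Cl
  | _, 0 => []
  | s, len + 1 => f s :: rowL f (s + 1) len

theorem rowL_length (f : ℕ → Cl) : ∀ (len s : ℕ), (rowL f s len).length = len
  | 0, _ => rfl
  | len + 1, s => by simp [rowL, rowL_length f len (s + 1)]

theorem mem_rowL (f : ℕ → Cl) (v : Cl) : ∀ (len s : ℕ), v ∈ rowL f s len →
    ∃ j, s ≤ j ∧ j < s + len ∧ v = f j
  | 0, _, h => by simp [rowL] at h
  | len + 1, s, h => by
    simp only [rowL, List.mem_cons] at h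
    rcases h with h | h
    · exact ⟨s, le_rfl, by omega, h⟩
    · obtain ⟨j, h1, h2, h3⟩ := mem_rowL f v len (s + 1) h
      exact ⟨j, by omega, by omega, h3⟩

theorem rowL_map (f g : ℕ → Cl) (h : ∀ j, g j = fl (f j)) : ∀ (len s : ℕ),
    rowL g s len = (rowL f s len).map fl
  | 0, _ => rfl
  | len + 1, s => by simp [rowL, h, rowL_map f g h len (s + 1)]

/-- a board with its dominoes, written cell by cell -/
structure Grid (m n : ℕ) (C : ℕ → ℕ → Cl) : Prop where
  wall : ∀ i j, C i j = W ↔ ¬ (1 ≤ i ∧ i ≤ m ∧ 1 ≤ j ∧ j ≤ n)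
  hor : ∀ i j, hp (C i j) (C i (j + 1)) = true
  ver : ∀ i j, vp (C i j) (C (i + 1) j) = true

def row (n : ℕ) (C : ℕ → ℕ → Cl) (i : ℕ) : List Cl := rowL (C i) 1 n

section

variable {m n : ℕ} {C : ℕ → ℕ → Cl}

theorem Grid.hrow (hC : Grid m n C) (i : ℕ) : ∀ (len s : ℕ), s + len = n →
    hr (rowL (C i) (s + 1) len) (C i s)
  | 0, s, h => by
    have h1 := hC.hor i s
    have h2 : C i (s + 1) = W := (hC.wall i (s + 1)).2 (by omega)
    rw [h2] at h1
    exact h1
  | len + 1, s, h => ⟨hC.hor i s, hC.hrow i len (s + 1) (by omega)⟩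

theorem Grid.vrow (hC : Grid m n C) (i : ℕ) (hi : i + 1 ≤ m) : ∀ (len s : ℕ), s + len = n →
    vd (rowL (C i) (s + 1) len) (rowL (C (i + 1)) (s + 1) len) (C (i + 1) s)
  | 0, s, h => by
    have h1 := hC.hor (i + 1) s
    have h2 : C (i + 1) (s + 1) = W := (hC.wall (i + 1) (s + 1)).2 (by omega)
    rw [h2] at h1
    exact h1
  | len + 1, s, h => by
    refine ⟨hC.ver i (s + 1), hC.hor (i + 1) s, ?_, hC.vrow i hi len (s + 1) (by omega)⟩
    intro hw
    exact (hC.wall (i + 1) (s + 1)).1 hw ⟨by omega, by omega, by omega, by omega⟩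

theorem Grid.col0 (hC : Grid m n C) (i : ℕ) : C i 0 = W := (hC.wall i 0).2 (by omega)

theorem Grid.hrow' (hC : Grid m n C) (i : ℕ) : hr (row n C i) W := by
  have := hC.hrow i n 0 (by omega)
  rwa [hC.col0] at this

theorem Grid.vrow' (hC : Grid m n C) (i : ℕ) (hi : i + 1 ≤ m) :
    vd (row n C i) (row n C (i + 1)) W := by
  have := hC.vrow i hi n 0 (by omega)
  rwa [hC.col0] at this

theorem Grid.row_wall (hC : Grid m n C) (i : ℕ) (hi : i ≤ m) (b : Cl) (hb : b ∈ row n C i) :
    b = W ↔ decide (i = 0) = true := by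
  obtain ⟨j, h1, h2, rfl⟩ := mem_rowL _ _ _ _ hb
  rw [hC.wall]
  simp only [decide_eq_true_eq]
  omega

end

noncomputable def XX (n : ℕ) (C : ℕ → ℕ → Cl) : ℕ → ℕ
  | 0 => 0
  | k + 1 => XX n C k + rx (row n C k) (row n C (k + 1)) W W

noncomputable def YY (n : ℕ) (C : ℕ → ℕ → Cl) : ℕ → ℕ
  | 0 => 0
  | k + 1 => YY n C k + ry (row n C k) (row n C (k + 1)) W W

noncomputable def HH (n : ℕ) (C : ℕ → ℕ → Cl) : ℕ → ℤ
  | 0 => 0
  | k + 1 => HH n C k + ws tO (row n C (k + 1))

section

variable {m n : ℕ} {C : ℕ → ℕ → Cl}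

theorem ws_zero (f : Cl → ℤ) (c : Cl) (hf : f c = 0) : ∀ w : List Cl, (∀ v ∈ w, v = c) →
    ws f w = 0
  | [], _ => rfl
  | v :: w, h => by
    have h1 : v = c := h v (by simp)
    have h2 := ws_zero f c hf w (fun x hx => h x (by simp [hx]))
    simp [ws, h1, h2, hf]

theorem evl_zero : ∀ w : List Cl, (∀ v ∈ w, v = W) → evl w W = 0
  | [], _ => rfl
  | v :: w, h => by
    have h1 : v = W := h v (by simp)
    have h2 := evl_zero w (fun x hx => h x (by simp [hx]))
    subst h1
    simp [evl, h2, ev]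

theorem Grid.row0 (hC : Grid m n C) : ∀ v ∈ row n C 0, v = W := fun v hv =>
  (hC.row_wall 0 (Nat.zero_le _) v hv).2 (by simp)

theorem row_ne_nil (hn : 1 ≤ n) (i : ℕ) : row n C i ≠ [] := by
  intro h
  have := rowL_length (C i) n 1
  unfold row at h
  rw [h] at this
  simp at this
  omega

theorem Grid.XX_closed (hC : Grid m n C) (hn : 1 ≤ n) : ∀ k, k ≤ m →
    (XX n C k : ℤ) = n * k - 3 * HH n C k - ws tT (row n C k) + evl (row n C k) W
  | 0, _ => by
    have h1 := ws_zero tT W rfl _ hC.row0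
    have h2 := evl_zero _ hC.row0
    simp [XX, HH, h1, h2]
  | k + 1, hk => by
    have ih := hC.XX_closed hn k (by omega)
    have h := rx_closed (decide (k = 0)) (row n C k) (row n C (k + 1)) W W (hC.hrow' k)
      (hC.vrow' k hk) (by decide +kernel) (hC.row_wall k (by omega)) (by simp)
      (Or.inl (row_ne_nil hn k))
    have hl : (row n C (k + 1)).length = n := rowL_length _ _ _
    have hr0 : rt W = 0 := rfl
    simp only [XX, HH]
    push_cast
    rw [h, ih, hl, hr0]
    ring

theorem Grid.YY_closed (hC : Grid m n C) (hn : 1 ≤ n) : ∀ k, k ≤ m →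
    (YY n C k : ℤ) = n * k + (if k = 0 then 0 else 1) - 3 * HH n C k - ws dn (row n C k)
  | 0, _ => by
    have h1 := ws_zero dn W rfl _ hC.row0
    simp [YY, HH, h1]
  | k + 1, hk => by
    have ih := hC.YY_closed hn k (by omega)
    have h := ry_closed (decide (k = 0)) (row n C k) (row n C (k + 1)) W W (hC.hrow' k)
      (hC.vrow' k hk) (by decide +kernel) (hC.row_wall k (by omega)) (by simp)
      (Or.inl (row_ne_nil hn k))
    have hl : (row n C (k + 1)).length = n := rowL_length _ _ _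
    have hr0 : tL W = 0 := rfl
    have he : ev (tau W) (tau W) = 0 := rfl
    simp only [YY, HH]
    push_cast
    rw [h, ih, hl, hr0, he]
    rcases Nat.eq_zero_or_pos k with hk0 | hk0
    · subst hk0
      simp
      ring
    · have : k ≠ 0 := by omega
      simp [this]
      ring

/-- up-down reflection -/
def refl (m : ℕ) (C : ℕ → ℕ → Cl) (i j : ℕ) : Cl := fl (C (m + 1 - i) j)

theorem fl_eq_W (v : Cl) : fl v = W ↔ v = W := by cases v <;> decide

theorem hp_fl : ∀ u v : Cl, hp u v = true → hp (fl u) (fl v) = true := by decide +kernel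

theorem vp_fl : ∀ u v : Cl, vp u v = true → vp (fl v) (fl u) = true := by decide +kernel

theorem Grid.refl (hC : Grid m n C) : Grid m n (refl m C) where
  wall := by
    intro i j
    unfold Gun.refl
    rw [fl_eq_W, hC.wall]
    omega
  hor := by
    intro i j
    exact hp_fl _ _ (hC.hor _ _)
  ver := by
    intro i j
    unfold Gun.refl
    rcases Nat.lt_or_ge m i with h | h
    · have h1 : m + 1 - i = 0 := by omega
      have h2 : m + 1 - (i + 1) = 0 := by omega
      have h3 : C 0 j = W := (hC.wall 0 j).2 (by omega)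
      rw [h1, h2, h3]
      decide +kernel
    · have h1 : m + 1 - i = (m + 1 - (i + 1)) + 1 := by omega
      rw [h1]
      exact vp_fl _ _ (hC.ver _ _)

theorem row_refl (k : ℕ) (i : ℕ) (h : m + 1 - i = k) :
    row n (refl m C) i = (row n C k).map fl := by
  unfold row
  apply rowL_map
  intro j
  unfold Gun.refl
  rw [h]

theorem HH_refl : ∀ l, l ≤ m → HH n (refl m C) l + HH n C (m - l) = HH n C m
  | 0, _ => by simp [HH]
  | l + 1, h => by
    have ih := HH_refl l (by omega)
    have e1 : m - l = (m - (l + 1)) + 1 := by omega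
    have e2 : row n (refl m C) (l + 1) = (row n C (m - l)).map fl :=
      row_refl (m - l) (l + 1) (by omega)
    simp only [HH]
    rw [e2, wsO_fl, ← ih, e1]
    simp only [HH]
    ring

theorem Grid.sumX (hC : Grid m n C) (hn : 1 ≤ n) (k : ℕ) (hk : 1 ≤ k) (hk' : k + 1 ≤ m) :
    (XX n C k : ℤ) + XX n (Gun.refl m C) (m - k) ≤ n * m - 3 * HH n C m + 2 := by
  rw [hC.XX_closed hn k (by omega), hC.refl.XX_closed hn (m - k) (by omega)]
  have e2 : row n (Gun.refl m C) (m - k) = (row n C (k + 1)).map fl :=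
    row_refl (k + 1) (m - k) (by omega)
  have h1 := HH_refl (m := m) (n := n) (C := C) (m - k) (by omega)
  have e3 : m - (m - k) = k := by omega
  rw [e3] at h1
  have h2 := midx (row n C k) (row n C (k + 1)) W W (hC.hrow' k) (hC.vrow' k hk')
    (by decide +kernel) (fun b hb hbW => by
      have := (hC.row_wall k (by omega) b hb).1 hbW
      simp at this
      omega) (by simp)
  have h3 := wsT_fl (row n C k) (row n C (k + 1)) W (hC.vrow' k hk')
  have e4 : fl W = W := rfl
  have e5 : cT W = 1 := rfl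
  rw [e2, h3]
  rw [e4, e5] at h2
  have e6 : ((m - k : ℕ) : ℤ) = m - k := by
    rw [Nat.cast_sub (by omega)]
  rw [e6]
  nlinarith [h1, h2]

theorem Grid.sumY (hC : Grid m n C) (hn : 1 ≤ n) (k : ℕ) (hk : 1 ≤ k) (hk' : k + 1 ≤ m) :
    (YY n C k : ℤ) + YY n (Gun.refl m C) (m - k) ≤ n * m - 3 * HH n C m + 2 := by
  rw [hC.YY_closed hn k (by omega), hC.refl.YY_closed hn (m - k) (by omega)]
  have e2 : row n (Gun.refl m C) (m - k) = (row n C (k + 1)).map fl :=
    row_refl (k + 1) (m - k) (by omega)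
  have h1 := HH_refl (m := m) (n := n) (C := C) (m - k) (by omega)
  have e3 : m - (m - k) = k := by omega
  rw [e3] at h1
  have h2 := midy (row n C k) (row n C (k + 1)) W W (hC.hrow' k) (hC.vrow' k hk')
    (by decide +kernel) (fun b hb hbW => by
      have := (hC.row_wall k (by omega) b hb).1 hbW
      simp at this
      omega) (by simp)
  have e5 : pc W W = 0 := rfl
  rw [e2]
  rw [e5] at h2
  have e6 : ((m - k : ℕ) : ℤ) = m - k := by
    rw [Nat.cast_sub (by omega)]
  have e7 : k ≠ 0 := by omega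
  have e8 : m - k ≠ 0 := by omega
  rw [e6]
  simp only [e7, e8, if_false]
  nlinarith [h1, h2]

theorem Grid.last (hC : Grid m n C) (hm : 1 ≤ m) : ∀ v ∈ row n C m, v ≠ T ∧ v ≠ W := by
  intro v hv
  constructor
  · obtain ⟨j, h1, h2, rfl⟩ := mem_rowL _ _ _ _ hv
    intro h
    have h3 := hC.ver m j
    have h4 : C (m + 1) j = W := (hC.wall (m + 1) j).2 (by omega)
    rw [h, h4] at h3
    exact absurd h3 (by decide +kernel)
  · intro h
    have := (hC.row_wall m (le_refl _) v hv).1 h
    simp at this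
    omega

theorem ws_last (w : List Cl) (h : ∀ v ∈ w, v ≠ T ∧ v ≠ W) : ws tT w = 0 := by
  induction w with
  | nil => rfl
  | cons v w ih =>
    have hv := (h v (by simp)).1
    have h2 := ih (fun x hx => h x (by simp [hx]))
    have h3 : tT v = 0 := by cases v <;> first | rfl | exact absurd rfl hv
    simp [ws, h2, h3]

theorem Grid.lastX (hC : Grid m n C) (hn : 1 ≤ n) (hm : 1 ≤ m) :
    (XX n C m : ℤ) = n * m - 3 * HH n C m + evl (row n C m) W ∧ evl (row n C m) W ≤ 2 := by
  have h := hC.last hm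
  refine ⟨?_, ?_⟩
  · rw [hC.XX_closed hn m le_rfl, ws_last _ h]; ring
  · have := evl_le (row n C m) W h (by decide)
    simpa [cW] using this

theorem Grid.lastY (hC : Grid m n C) (hn : 1 ≤ n) (hm : 1 ≤ m) :
    (YY n C m : ℤ) = n * m + 1 - 3 * HH n C m - ws dn (row n C m) ∧ -1 ≤ ws dn (row n C m) := by
  have h := hC.last hm
  refine ⟨?_, ?_⟩
  · rw [hC.YY_closed hn m le_rfl]
    have : m ≠ 0 := by omega
    simp [this]
  · have := dn_ge (row n C m) W h (hC.hrow' m)
    simpa [cOL] using this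

end

end Pool.Agent.U263.Gun
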