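import Pool.Agent.U263.Gun.Run

set_option autoImplicit false

namespace Pool.Agent.U263.Gun

open Cl

section

variable {m n : ℕ} {C : ℕ → ℕ → Cl}

theorem srch_run (hC : Grid m n C) (fin : List Cl → ℕ → Bool) : ∀ (ms cs : List ℕ) (k : ℕ),
    List.Forall₂ Good ms cs → k + ms.length ≤ m →
    (∀ i, i < ms.length → XX n C (k + i + 1) ≤ 4 ∧ YY n C (k + i + 1) ≤ 4 ∧
      XX n C (k + i + 1) + YY n C (k + i + 1) ≤ cs.getD i 0) →
    srch fin ms (row n C k) (XX n C k + 8 * YY n C k) = true →
    fin (row n C (k + ms.length)) (XX n C (k + ms.length) + 8 * YY n C (k + ms.length)) = true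
  | [], _, k, _, _, _, h => h
  | _ :: ms, [], _, h1, _, _, _ => by cases h1
  | mk :: ms, c :: cs, k, h1, h2, h3, h => by
    cases h1 with
    | cons g gs =>
      have h30 := h3 0 (by simp)
      simp only [List.getD_cons_zero, XX, YY] at h30
      simp only [List.length_cons] at h2
      have h4 := srch_step g fin ms (row n C k) (row n C (k + 1)) (XX n C k) (YY n C k)
        (hC.vrow' k (by omega)) h h30.1 h30.2.1 h30.2.2
      have h5 := srch_run hC fin ms cs (k + 1) gs (by omega) (by
        intro i hi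
        have h6 := h3 (i + 1) (by simpa using hi)
        have e : k + 1 + i + 1 = k + (i + 1) + 1 := by omega
        rw [e]
        simpa using h6) h4
      have e2 : k + 1 + ms.length = k + (mk :: ms).length := by simp; omega
      rw [← e2]
      exact h5

theorem XX_mono (n : ℕ) (C : ℕ → ℕ → Cl) {a b : ℕ} (h : a ≤ b) : XX n C a ≤ XX n C b := by
  induction b, h using Nat.le_induction with
  | base => exact le_rfl
  | succ k _ ih => simp only [XX]; omega

theorem YY_mono (n : ℕ) (C : ℕ → ℕ → Cl) {a b : ℕ} (h : a ≤ b) : YY n C a ≤ YY n C b := by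
  induction b, h using Nat.le_induction with
  | base => exact le_rfl
  | succ k _ ih => simp only [YY]; omega

theorem HH_refl_full : HH n (Gun.refl m C) m = HH n C m := by
  have h := HH_refl (m := m) (n := n) (C := C) m le_rfl
  have h0 : HH n C 0 = 0 := rfl
  rw [Nat.sub_self, h0, add_zero] at h
  exact h

theorem row_zero (hC : Grid m n C) : row n C 0 = List.replicate n W := by
  apply List.eq_replicate_iff.2
  exact ⟨rowL_length _ _ _, hC.row0⟩

end

section

variable {C : ℕ → ℕ → Cl}

theorem budget (hC : Grid 16 14 C) (h : HH 14 C 16 = 74) (k : ℕ) (hk : k ≤ 16) :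
    XX 14 C k ≤ 4 ∧ YY 14 C k ≤ 4 := by
  have h1 := hC.lastX (by norm_num) (by norm_num)
  have h2 := hC.lastY (by norm_num) (by norm_num)
  have h3 := XX_mono 14 C hk
  have h4 := YY_mono 14 C hk
  rw [h] at h1 h2
  have h5 : (XX 14 C 16 : ℤ) ≤ 4 := by
    rw [h1.1]; have := h1.2; push_cast; linarith
  have h6 : (YY 14 C 16 : ℤ) ≤ 4 := by
    rw [h2.1]; have := h2.2; push_cast; linarith
  omega

theorem low3 (hC : Grid 16 14 C) : 1 ≤ XX 14 C 3 + YY 14 C 3 := by
  by_contra hc
  have h0 : XX 14 C 3 + YY 14 C 3 = 0 := by omega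
  have h1 := srch_run hC (fun _ _ => false) [m0, m0, m0] [0, 0, 0] 0
    (List.Forall₂.cons g0 (List.Forall₂.cons g0 (List.Forall₂.cons g0 List.Forall₂.nil)))
    (by simp) (by
      intro i hi
      simp only [List.length_cons, List.length_nil] at hi
      have a1 := XX_mono 14 C (show 0 + i + 1 ≤ 3 by omega)
      have a2 := YY_mono 14 C (show 0 + i + 1 ≤ 3 by omega)
      refine ⟨by omega, by omega, ?_⟩
      have : ([0, 0, 0] : List ℕ).getD i 0 = 0 := by
        interval_cases i <;> rfl
      rw [this]; omega) (by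
      rw [row_zero hC]
      exact run3)
  exact absurd h1 (by decide)

theorem low4 (hC : Grid 16 14 C) (k : ℕ) (hk : 4 ≤ k) :
    2 ≤ XX 14 C k + YY 14 C k := by
  have b1 := XX_mono 14 C hk
  have b2 := YY_mono 14 C hk
  by_contra hc
  have h0 : XX 14 C 4 + YY 14 C 4 ≤ 1 := by omega
  have h1 := srch_run hC (fun _ _ => false) [m1, m1, m1, m1] [1, 1, 1, 1] 0
    (List.Forall₂.cons g1 (List.Forall₂.cons g1 (List.Forall₂.cons g1
      (List.Forall₂.cons g1 List.Forall₂.nil))))
    (by simp) (by
      intro i hi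
      simp only [List.length_cons, List.length_nil] at hi
      have a1 := XX_mono 14 C (show 0 + i + 1 ≤ 4 by omega)
      have a2 := YY_mono 14 C (show 0 + i + 1 ≤ 4 by omega)
      refine ⟨by omega, by omega, ?_⟩
      have : ([1, 1, 1, 1] : List ℕ).getD i 0 = 1 := by
        interval_cases i <;> rfl
      rw [this]; omega) (by
      rw [row_zero hC]
      exact run4)
  exact absurd h1 (by decide)

theorem no74_half (hC : Grid 16 14 C) (h : HH 14 C 16 = 74)
    (hT : XX 14 C 8 + YY 14 C 8 ≤ 4) : False := by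
  have hR : Grid 16 14 (Gun.refl 16 C) := hC.refl
  have hH : HH 14 (Gun.refl 16 C) 16 = 74 := by
    rw [HH_refl_full]
    exact h
  have hs : ∀ k, 1 ≤ k → k ≤ 15 →
      XX 14 C k + YY 14 C k + (XX 14 (Gun.refl 16 C) (16 - k) + YY 14 (Gun.refl 16 C) (16 - k))
        ≤ 8 := by
    intro k h1 h2
    have a1 := hC.sumX (by norm_num) k h1 (by omega)
    have a2 := hC.sumY (by norm_num) k h1 (by omega)
    rw [h] at a1 a2
    push_cast at a1 a2
    omega
  have h1 := srch_run hC fin
    [m4, m4, m4, m4, m4, m4, m4, m4, m6, m6, m6, m6, m7, m8, m8, m8]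
    [4, 4, 4, 4, 4, 4, 4, 4, 6, 6, 6, 6, 7, 8, 8, 8] 0
    (List.Forall₂.cons g4 (List.Forall₂.cons g4 (List.Forall₂.cons g4 (List.Forall₂.cons g4
      (List.Forall₂.cons g4 (List.Forall₂.cons g4 (List.Forall₂.cons g4 (List.Forall₂.cons g4
      (List.Forall₂.cons g6 (List.Forall₂.cons g6 (List.Forall₂.cons g6 (List.Forall₂.cons g6
      (List.Forall₂.cons g7 (List.Forall₂.cons g8 (List.Forall₂.cons g8
      (List.Forall₂.cons g8 List.Forall₂.nil))))))))))))))))
    (by simp) (by
      intro i hi
      simp only [List.length_cons, List.length_nil] at hi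
      have a0 := budget hC h (0 + i + 1) (by omega)
      refine ⟨a0.1, a0.2, ?_⟩
      rcases Nat.lt_or_ge i 8 with hi8 | hi8
      · have a1 := XX_mono 14 C (show 0 + i + 1 ≤ 8 by omega)
        have a2 := YY_mono 14 C (show 0 + i + 1 ≤ 8 by omega)
        have : ([4, 4, 4, 4, 4, 4, 4, 4, 6, 6, 6, 6, 7, 8, 8, 8] : List ℕ).getD i 0 = 4 := by
          interval_cases i <;> rfl
        rw [this]; omega
      rcases Nat.lt_or_ge i 12 with hi12 | hi12
      · have a3 := low4 hR (16 - (0 + i + 1)) (by omega)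
        have a4 := hs (0 + i + 1) (by omega) (by omega)
        have : ([4, 4, 4, 4, 4, 4, 4, 4, 6, 6, 6, 6, 7, 8, 8, 8] : List ℕ).getD i 0 = 6 := by
          interval_cases i <;> rfl
        rw [this]; omega
      rcases Nat.lt_or_ge i 13 with hi13 | hi13
      · have hi : i = 12 := by omega
        subst hi
        have a3 := low3 hR
        have a4 := hs 13 (by omega) (by omega)
        norm_num at a4 ⊢
        omega
      · have : ([4, 4, 4, 4, 4, 4, 4, 4, 6, 6, 6, 6, 7, 8, 8, 8] : List ℕ).getD i 0 = 8 := by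
          interval_cases i <;> rfl
        rw [this]; omega) (by
      rw [row_zero hC]
      exact run16)
  have b := budget hC h 16 le_rfl
  have c1 := hC.lastX (by norm_num) (by norm_num)
  have c2 := hC.lastY (by norm_num) (by norm_num)
  have c3 := hC.last (by norm_num)
  rw [h] at c1 c2
  simp only [List.length_cons, List.length_nil, zero_add, Nat.reduceAdd] at h1
  have d1 : (XX 14 C 16 + 8 * YY 14 C 16) % 8 = XX 14 C 16 := by omega
  have d2 : (XX 14 C 16 + 8 * YY 14 C 16) / 8 = YY 14 C 16 := by omega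
  unfold fin at h1
  rw [d1, d2] at h1
  have e1 : (row 14 C 16).all (fun v => !(isT v)) = true := by
    rw [List.all_eq_true]
    intro v hv
    have := (c3 v hv).1
    cases v <;> first | rfl | exact absurd rfl this
  have e2 : ((XX 14 C 16 : ℕ) : ℤ) = 2 + evl (row 14 C 16) W := by
    rw [c1.1]; norm_num
  have e3 : ((YY 14 C 16 : ℕ) : ℤ) = 3 - ws dn (row 14 C 16) := by
    rw [c2.1]; norm_num
  rw [e1, decide_eq_true e2, decide_eq_true e3] at h1
  exact absurd h1 (by decide)

theorem no74 (hC : Grid 16 14 C) : HH 14 C 16 ≠ 74 := by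
  intro h
  have hR : Grid 16 14 (Gun.refl 16 C) := hC.refl
  have hH : HH 14 (Gun.refl 16 C) 16 = 74 := by
    rw [HH_refl_full]
    exact h
  have a1 := hC.sumX (by norm_num) 8 (by norm_num) (by norm_num)
  have a2 := hC.sumY (by norm_num) 8 (by norm_num) (by norm_num)
  rw [h] at a1 a2
  norm_num at a1 a2
  rcases Nat.lt_or_ge 4 (XX 14 C 8 + YY 14 C 8) with h1 | h1
  · exact no74_half hR hH (by omega)
  · exact no74_half hC h h1

theorem le75 (hC : Grid 16 14 C) : HH 14 C 16 ≤ 75 := by
  have c1 := hC.lastX (by norm_num) (by norm_num)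
  have h0 : (0 : ℤ) ≤ XX 14 C 16 := by positivity
  rw [c1.1] at h0
  have := c1.2
  push_cast at h0
  omega

end

end Pool.Agent.U263.Gun
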