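import Pool.Agent.U263.Gun.Grid

set_option autoImplicit false

namespace Pool.Agent.U263.Gun

open Cl

/-- the test of the last row: fails only for a last row of a board with 74 holes -/
noncomputable def fin (w : List Cl) (z : ℕ) : Bool :=
  !(w.all (fun v => !(isT v)) && (decide (((z % 8 : ℕ) : ℤ) = 2 + evl w W) &&
    decide (((z / 8 : ℕ) : ℤ) = 3 - ws dn w)))

def m0 : ℕ := nat_lit 1
def m1 : ℕ := nat_lit 259
def m4 : ℕ := nat_lit 4345761567
def m6 : ℕ := nat_lit 30318468895
def m7 : ℕ := nat_lit 64946642719
def m8 : ℕ := nat_lit 133666119455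

theorem g0 : Good m0 0 := good_of _ _ (by decide +kernel)
theorem g1 : Good m1 1 := good_of _ _ (by decide +kernel)
theorem g4 : Good m4 4 := good_of _ _ (by decide +kernel)
theorem g6 : Good m6 6 := good_of _ _ (by decide +kernel)
theorem g7 : Good m7 7 := good_of _ _ (by decide +kernel)
theorem g8 : Good m8 8 := good_of _ _ (by decide +kernel)

theorem run3 : srch (fun _ _ => false) [m0, m0, m0] (List.replicate 14 W) 0 = true := by
  decide +kernel

theorem run4 : srch (fun _ _ => false) [m1, m1, m1, m1] (List.replicate 14 W) 0 = true := by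
  decide +kernel

theorem run16 : srch fin [m4, m4, m4, m4, m4, m4, m4, m4, m6, m6, m6, m6, m7, m8, m8, m8]
    (List.replicate 14 W) 0 = true := by
  decide +kernel

end Pool.Agent.U263.Gun
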