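import Pool.Agent.U263.Gun.Core

set_option autoImplicit false

namespace Pool.Agent.U263.Gun

open Cl

instance : Fintype Cl := ⟨{O, L, R, T, B, W}, by intro x; cases x <;> simp⟩

/-- `u` may stand to the left of `v` -/
noncomputable def hp (u v : Cl) : Bool := (isL u == isR v) && !(isO u && isO v)

/-- `b` may stand above `v` -/
noncomputable def vp (b v : Cl) : Bool := (isT b == isB v) && !(isO b && isO v)

theorem cst_eq : ∀ a b u v : Cl, cst v u b a = xd a b u v + 8 * yd a b u v := by decide +kernel

theorem force_eq (n : ℕ) (k : ℕ → Bool) : force n k = k n := by cases n <;> rfl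

/-- `mask` lists (at least) the pairs within the budgets -/
def Good (mask cap : ℕ) : Prop :=
  ∀ x y : ℕ, x ≤ 4 → y ≤ 4 → x + y ≤ cap → Nat.land (Nat.shiftRight mask (x + 8 * y)) 1 = 1

theorem good_of (mask cap : ℕ) (h : ∀ x ∈ Finset.range 5, ∀ y ∈ Finset.range 5, x + y ≤ cap →
    Nat.land (Nat.shiftRight mask (x + 8 * y)) 1 = 1) : Good mask cap := by
  intro x y hx hy hc
  exact h x (Finset.mem_range.2 (by omega)) y (Finset.mem_range.2 (by omega)) hc

theorem put_sound {mask cap : ℕ} (hm : Good mask cap) {x y dx dy : ℕ} {k : ℕ → Bool}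
    (h : put mask (x + 8 * y) (dx + 8 * dy) k = true) (hx : x + dx ≤ 4) (hy : y + dy ≤ 4)
    (hc : (x + dx) + (y + dy) ≤ cap) : k ((x + dx) + 8 * (y + dy)) = true := by
  have e : (x + dx) + 8 * (y + dy) = (x + 8 * y) + (dx + 8 * dy) := by ring
  have g := hm (x + dx) (y + dy) hx hy hc
  rw [e] at g ⊢
  generalize dx + 8 * dy = d at h g ⊢
  cases d with
  | zero => exact h
  | succ m =>
    have h1 : force (Nat.add (x + 8 * y) (Nat.succ m)) (gate mask k) = true := h
    rw [force_eq] at h1
    have h2 : Nat.rec (motive := fun _ => Bool) true (fun _ _ => k (x + 8 * y + (m + 1)))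
        (Nat.land (Nat.shiftRight mask (x + 8 * y + (m + 1))) 1) = true := h1
    rw [g] at h2
    exact h2

/-- the branch for the cell `v` -/
def sel (v : Cl) (tO tT tL tR tB : Bool) : Bool :=
  match v with
  | O => tO
  | T => tT
  | L => tL
  | R => tR
  | B => tB
  | W => true

theorem br_sel : ∀ b u v : Cl, vp b v = true → hp u v = true → v ≠ W →
    ∀ tO tT tL tR tB : Bool, br b u tO tT tL tR tB = true → sel v tO tT tL tR tB = true := by
  decide +kernel

/-- sum of the horizontal defects in the windows of the rows `p`, `w` to the right of `a`, `u` -/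
noncomputable def rx : List Cl → List Cl → Cl → Cl → ℕ
  | b :: p, v :: w, a, u => xd a b u v + rx p w b v
  | _, _, a, u => xd a W u W

/-- sum of the vertical defects in the windows of the rows `p`, `w` to the right of `a`, `u` -/
noncomputable def ry : List Cl → List Cl → Cl → Cl → ℕ
  | b :: p, v :: w, a, u => yd a b u v + ry p w b v
  | _, _, a, u => yd a W u W

/-- the row `w` can follow the row `p`; `u` is the cell to the left of the row `w` -/
def vd : List Cl → List Cl → Cl → Prop
  | b :: p, v :: w, u => vp b v = true ∧ hp u v = true ∧ v ≠ W ∧ vd p w v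
  | [], [], u => hp u W = true
  | _, _, _ => False

theorem chk_sound {mask cap : ℕ} (hm : Good mask cap) (k : List Cl → ℕ → Bool) :
    ∀ (p w : List Cl) (a u : Cl) (x y : ℕ) (acc : List Cl), vd p w u →
      chk mask k p a u (x + 8 * y) acc = true → x + rx p w a u ≤ 4 → y + ry p w a u ≤ 4 →
      (x + rx p w a u) + (y + ry p w a u) ≤ cap →
      k (acc.reverse ++ w) ((x + rx p w a u) + 8 * (y + ry p w a u)) = true := by
  intro p
  induction p with
  | nil =>
    intro w a u x y acc hv h hx hy hc
    cases w with
    | cons v w => exact hv.elim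
    | nil =>
      simp only [rx, ry] at hx hy hc ⊢
      have hu : hp u W = true := hv
      have h1 : Cl.rec (motive := fun _ => Bool → Bool) (fun t => t) (fun _ => true) (fun t => t)
        (fun t => t) (fun t => t) (fun t => t) u
        (put mask (x + 8 * y) (cst W u W a) (k (List.reverse acc))) = true := h
      have h2 : put mask (x + 8 * y) (cst W u W a) (k (List.reverse acc)) = true := by
        cases u with
        | L => exact absurd hu (by decide)
        | O => exact h1
        | R => exact h1
        | T => exact h1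
        | B => exact h1
        | W => exact h1
      rw [cst_eq] at h2
      have := put_sound hm h2 hx hy hc
      simpa using this
  | cons b p ih =>
    intro w a u x y acc hv h hx hy hc
    cases w with
    | nil => exact hv.elim
    | cons v w =>
      obtain ⟨h1, h2, h3, h4⟩ := hv
      have h5 := br_sel b u v h1 h2 h3 _ _ _ _ _ h
      simp only [rx, ry] at hx hy hc ⊢
      have key : put mask (x + 8 * y) (cst v u b a)
          (fun z' => chk mask k p b v z' (v :: acc)) = true := by
        cases v with
        | O => exact h5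
        | L => exact h5
        | R => exact h5
        | T => exact h5
        | B => exact h5
        | W => exact absurd rfl h3
      rw [cst_eq] at key
      have h6 := put_sound hm key (by omega) (by omega) (by omega)
      have h7 := ih w b v (x + xd a b u v) (y + yd a b u v) (v :: acc) h4 h6 (by omega) (by omega)
        (by omega)
      have e1 : x + xd a b u v + rx p w b v = x + (xd a b u v + rx p w b v) := by ring
      have e2 : y + yd a b u v + ry p w b v = y + (yd a b u v + ry p w b v) := by ring
      rw [e1, e2] at h7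
      simpa using h7

theorem srch_step {mask cap : ℕ} (hm : Good mask cap) (fin : List Cl → ℕ → Bool) (masks : List ℕ)
    (p w : List Cl) (x y : ℕ) (hv : vd p w W)
    (h : srch fin (mask :: masks) p (x + 8 * y) = true)
    (hx : x + rx p w W W ≤ 4) (hy : y + ry p w W W ≤ 4)
    (hc : (x + rx p w W W) + (y + ry p w W W) ≤ cap) :
    srch fin masks w ((x + rx p w W W) + 8 * (y + ry p w W W)) = true := by
  have h1 : chk mask (srch fin masks) p W W (x + 8 * y) [] = true := h
  have := chk_sound hm _ p w W W x y [] hv h1 hx hy hc
  simpa using this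

/-- weight sum of a row -/
noncomputable def ws (f : Cl → ℤ) : List Cl → ℤ
  | [] => 0
  | v :: w => f v + ws f w

/-- weights -/
def rt : Cl → ℤ
  | O => -1
  | R => 1
  | B => 1
  | _ => 0
def tT : Cl → ℤ
  | T => 1
  | _ => 0
def tO : Cl → ℤ
  | O => 1
  | _ => 0
def tL : Cl → ℤ
  | L => 1
  | _ => 0

/-- `1` if one of `u`, `v` is a hole and the other the top cell of a domino -/
def ev : Cl → Cl → ℤ
  | O, T => 1
  | T, O => 1
  | W, O => 1
  | W, T => 1
  | O, W => 1
  | T, W => 1
  | _, _ => 0

/-- sum of `ev` along a row with wall at the right end -/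
def evl : List Cl → Cl → ℤ
  | [], u => ev u W
  | v :: w, u => ev u v + evl w v

/-- transposition -/
def tau : Cl → Cl
  | O => O
  | L => T
  | T => L
  | R => B
  | B => R
  | W => W

/-- row is horizontally valid -/
def hr : List Cl → Cl → Prop
  | [], a => hp a W = true
  | b :: p, a => hp a b = true ∧ hr p b

theorem hr_of_vd : ∀ (p w : List Cl) (u : Cl), vd p w u → hr w u
  | [], [], _, h => h
  | [], _ :: _, _, h => h.elim
  | _ :: _, [], _, h => h.elim
  | _ :: p, v :: w, _, h => ⟨h.2.1, hr_of_vd p w v h.2.2.2⟩

theorem xd_id : ∀ t : Bool, ∀ a b u v : Cl, hp a b = true → hp u v = true → vp a u = true →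
    vp b v = true → v ≠ W → (b = W ↔ t = true) → (a = W ↔ (t = true ∨ u = W)) →
    (xd a b u v : ℤ) = rt u - rt v + (1 - 3 * tO v - tT v + tT b) + ev u v - ev a b := by
  decide +kernel

theorem xd_id' : ∀ t : Bool, ∀ a u : Cl, hp a W = true → hp u W = true → vp a u = true →
    u ≠ W → (a = W ↔ (t = true ∨ u = W)) →
    (xd a W u W : ℤ) = rt u + ev u W - ev a W := by
  decide +kernel

theorem yd_id : ∀ t : Bool, ∀ a b u v : Cl, hp a b = true → hp u v = true → vp a u = true →
    vp b v = true → v ≠ W → (b = W ↔ t = true) → (a = W ↔ (t = true ∨ u = W)) →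
    (yd a b u v : ℤ) = rt (tau b) - rt (tau v) + (1 - 3 * tO v - tL v + tL u)
      + ev (tau b) (tau v) - ev (tau a) (tau u) := by
  decide +kernel

theorem yd_id' : ∀ t : Bool, ∀ a u : Cl, hp a W = true → hp u W = true → vp a u = true →
    u ≠ W → (a = W ↔ (t = true ∨ u = W)) →
    (yd a W u W : ℤ) = (if t = true then 1 else 0) + tL u - ev (tau a) (tau u) := by
  decide +kernel

end Pool.Agent.U263.Gun
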